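import Pool.Agent.Helper6.AF2.Defs

set_option autoImplicit false

namespace Pool.Agent.Helper6.AF2

section

variable {V W U Y K S N A E : Type}
  [AddCommGroup V] [Module ℂ V] [AddCommGroup W] [Module ℂ W] [AddCommGroup U] [Module ℂ U]
  [AddCommGroup Y] [Module ℂ Y] [AddCommGroup K] [Module ℂ K]
  [AddCommGroup S] [Module ℂ S] [AddCommGroup N] [Module ℂ N]
  [AddCommGroup A] [Module ℂ A] [AddCommGroup E] [Module ℂ E]

variable {a : S →ₗ[ℂ] A} {ρU : S →ₗ[ℂ] U →ₗ[ℂ] U} {ρY : S →ₗ[ℂ] Y →ₗ[ℂ] Y}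
  {bb : N →ₗ[ℂ] S →ₗ[ℂ] N} {c : E →ₗ[ℂ] N} {τU : (U →ₗ[ℂ] U) →ₗ[ℂ] N}
  {τY : (Y →ₗ[ℂ] Y) →ₗ[ℂ] N}

lemma exists_rank_one {V U : Type} [AddCommGroup V] [Module ℂ V] [AddCommGroup U] [Module ℂ U]
    (X : V →ₗ[ℂ] U) (hi : ¬ Function.Injective X) (hs : ¬ Function.Surjective X) :
    ∃ m : U →ₗ[ℂ] V, m ≠ 0 ∧ m ∘ₗ X = 0 ∧ X ∘ₗ m = 0 := by
  have hker : LinearMap.ker X ≠ ⊥ := fun h0 => hi (LinearMap.ker_eq_bot.1 h0)
  obtain ⟨v, hv, hv0⟩ := (Submodule.ne_bot_iff _).1 hker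
  have hrange : LinearMap.range X ≠ ⊤ := fun h0 => hs (LinearMap.range_eq_top.1 h0)
  obtain ⟨φ, hφ0, hφ⟩ := Submodule.exists_le_ker_of_lt_top _ (lt_top_iff_ne_top.2 hrange)
  refine ⟨φ.smulRight v, ?_, ?_, ?_⟩
  · intro h
    apply hφ0
    apply LinearMap.ext
    intro y
    have h2 := LinearMap.congr_fun h y
    rw [LinearMap.smulRight_apply, LinearMap.zero_apply, smul_eq_zero] at h2
    exact h2.resolve_right hv0
  · apply LinearMap.ext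
    intro w
    have : φ (X w) = 0 := hφ (LinearMap.mem_range_self X w)
    simp [this]
  · apply LinearMap.ext
    intro w
    have hv' : X v = 0 := hv
    simp [hv']

/-- In a nondegenerate system `φ` is injective or surjective. -/
lemma KS2.inj_or_surj_out {Λ : V →ₗ[ℂ] V} {φ : V →ₗ[ℂ] U} {ψ : Y →ₗ[ℂ] V} {l : N}
    (h : KS2 a ρU ρY bb c τU τY Λ φ ψ l) : Function.Injective φ ∨ Function.Surjective φ := by
  by_contra hcon
  rw [not_or] at hcon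
  obtain ⟨m, hm0, h1, h2⟩ := exists_rank_one φ hcon.1 hcon.2
  exact hm0 (h 0 0 0 m 0 (map_zero a) (by simp) (by simp) (by simp [h1]) (by simp [h2])).2.2.2.1

/-- In a nondegenerate system `ψ` is injective or surjective. -/
lemma KS2.inj_or_surj_in {Λ : V →ₗ[ℂ] V} {φ : V →ₗ[ℂ] U} {ψ : Y →ₗ[ℂ] V} {l : N}
    (h : KS2 a ρU ρY bb c τU τY Λ φ ψ l) : Function.Injective ψ ∨ Function.Surjective ψ := by
  by_contra hcon
  rw [not_or] at hcon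
  obtain ⟨m, hm0, h1, h2⟩ := exists_rank_one ψ hcon.1 hcon.2
  exact hm0 (h 0 0 0 0 m (map_zero a) (by simp) (by simp) (by simp [h2]) (by simp [h1])).2.2.2.2

/-- transport along an isomorphism -/
lemma KS2.congr {Λ : V →ₗ[ℂ] V} {φ : V →ₗ[ℂ] U} {ψ : Y →ₗ[ℂ] V} {l : N}
    (h : KS2 a ρU ρY bb c τU τY Λ φ ψ l) (e : V ≃ₗ[ℂ] W) :
    KS2 a ρU ρY bb c τU τY (e.toLinearMap ∘ₗ Λ ∘ₗ e.symm.toLinearMap)
      (φ ∘ₗ e.symm.toLinearMap) (e.toLinearMap ∘ₗ ψ) l := by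
  intro σ s x m p h1 h2 h3 h4 h5
  have h6 := h (e.symm.toLinearMap ∘ₗ σ ∘ₗ e.toLinearMap) s x (e.symm.toLinearMap ∘ₗ m)
    (p ∘ₗ e.toLinearMap) h1
    (by
      apply LinearMap.ext
      intro v
      have := LinearMap.congr_fun h2 (e v)
      simpa using this)
    (by
      apply LinearMap.ext
      intro v
      have := congrArg e.symm (LinearMap.congr_fun h3 v)
      simpa using this)
    (by
      apply LinearMap.ext
      intro v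
      have := congrArg e.symm (LinearMap.congr_fun h4 (e v))
      simpa using this)
    h5
  refine ⟨?_, h6.2.1, h6.2.2.1, ?_, ?_⟩
  · apply LinearMap.ext
    intro v
    have := congrArg e (LinearMap.congr_fun h6.1 (e.symm v))
    simpa using this
  · apply LinearMap.ext
    intro v
    have := congrArg e (LinearMap.congr_fun h6.2.2.2.1 v)
    simpa using this
  · apply LinearMap.ext
    intro v
    have := LinearMap.congr_fun h6.2.2.2.2 (e.symm v)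
    simpa using this

end

/-! ### Genericity -/

section generic

/-- Along a line of linear maps through an injective one all but finitely many are injective. -/
lemma finite_not_injective {X Z : Type} [AddCommGroup X] [Module ℂ X] [AddCommGroup Z] [Module ℂ Z]
    [FiniteDimensional ℂ X] (L0 L1 : X →ₗ[ℂ] Z) (h0 : Function.Injective L0) :
    {t : ℂ | ¬ Function.Injective (L0 + t • L1)}.Finite := by
  obtain ⟨R, hR⟩ := L0.exists_leftInverse_of_injective (LinearMap.ker_eq_bot.2 h0)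
  have hR' : ∀ v, R (L0 v) = v := fun v => LinearMap.congr_fun hR v
  let f : Module.End ℂ X := R ∘ₗ L1
  have hfin : {μ : ℂ | f.HasEigenvalue μ}.Finite := Module.End.finite_hasEigenvalue f
  refine (hfin.image (fun μ : ℂ => -μ⁻¹)).subset ?_
  intro t ht
  have ht' : ¬ Function.Injective (L0 + t • L1) := ht
  rw [injective_iff_map_eq_zero] at ht'
  push Not at ht'
  obtain ⟨x, hx, hx0⟩ := ht'
  have hx1 : L0 x + t • L1 x = 0 := hx
  have ht0 : t ≠ 0 := by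
    intro h
    rw [h, zero_smul, add_zero] at hx1
    exact hx0 (h0 (by rw [hx1, map_zero]))
  have hx2 : x + t • f x = 0 := by
    have := congrArg R hx1
    rw [map_add, hR', map_smul, map_zero] at this
    exact this
  have hx3 : f x = (-t⁻¹) • x := by
    have h4 : t • f x = -x := by
      rw [eq_neg_iff_add_eq_zero, add_comm]
      exact hx2
    calc f x = t⁻¹ • (t • f x) := by rw [smul_smul, inv_mul_cancel₀ ht0, one_smul]
      _ = (-t⁻¹) • x := by rw [h4, smul_neg, neg_smul]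
  refine ⟨-t⁻¹, ?_, ?_⟩
  · exact Module.End.hasEigenvalue_of_hasEigenvector
      ⟨Module.End.mem_eigenspace_iff.2 hx3, hx0⟩
  · change -(-t⁻¹)⁻¹ = t
    rw [inv_neg, inv_inv, neg_neg]

/-- The same with the injective map as direction. -/
lemma finite_not_injective' {X Z : Type} [AddCommGroup X] [Module ℂ X] [AddCommGroup Z]
    [Module ℂ Z] [FiniteDimensional ℂ X] (L0 L1 : X →ₗ[ℂ] Z) (h1 : Function.Injective L1) :
    {t : ℂ | ¬ Function.Injective (L0 + t • L1)}.Finite := by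
  have h := finite_not_injective L1 L0 h1
  refine ((h.image (fun μ : ℂ => μ⁻¹)).union (Set.finite_singleton 0)).subset ?_
  intro t ht
  have ht' : ¬ Function.Injective (L0 + t • L1) := ht
  by_cases h0 : t = 0
  · right
    exact h0
  · left
    refine ⟨t⁻¹, ?_, inv_inv t⟩
    change ¬ Function.Injective (L1 + t⁻¹ • L0)
    intro hinj
    apply ht'
    rw [injective_iff_map_eq_zero] at hinj ⊢
    intro x hx
    apply hinj
    have hx1 : L0 x + t • L1 x = 0 := hx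
    change L1 x + t⁻¹ • L0 x = 0
    have h2 := congrArg (fun z => t⁻¹ • z) hx1
    simp only [smul_add, smul_smul, inv_mul_cancel₀ h0, one_smul, smul_zero] at h2
    rw [add_comm]
    exact h2

variable {V W U Y K S N A E : Type}
  [AddCommGroup V] [Module ℂ V] [AddCommGroup W] [Module ℂ W] [AddCommGroup U] [Module ℂ U]
  [AddCommGroup Y] [Module ℂ Y] [AddCommGroup K] [Module ℂ K]
  [AddCommGroup S] [Module ℂ S] [AddCommGroup N] [Module ℂ N]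
  [AddCommGroup A] [Module ℂ A] [AddCommGroup E] [Module ℂ E]

/-- the linear map whose kernel is the set of solutions of the system -/
def sysMap (a : S →ₗ[ℂ] A) (ρU : S →ₗ[ℂ] U →ₗ[ℂ] U) (ρY : S →ₗ[ℂ] Y →ₗ[ℂ] Y)
    (bb : N →ₗ[ℂ] S →ₗ[ℂ] N) (c : E →ₗ[ℂ] N) (τU : (U →ₗ[ℂ] U) →ₗ[ℂ] N)
    (τY : (Y →ₗ[ℂ] Y) →ₗ[ℂ] N) (Λ : V →ₗ[ℂ] V) (l : N) (φ : V →ₗ[ℂ] U) (ψ : Y →ₗ[ℂ] V) :
    ((V →ₗ[ℂ] V) × S × E × (U →ₗ[ℂ] V) × (V →ₗ[ℂ] Y)) →ₗ[ℂ]
      (A × (V →ₗ[ℂ] U) × (Y →ₗ[ℂ] V) × (V →ₗ[ℂ] V) × N) where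
  toFun z := (a z.2.1, φ ∘ₗ z.1 - ρU z.2.1 ∘ₗ φ, z.1 ∘ₗ ψ - ψ ∘ₗ ρY z.2.1,
    (Λ ∘ₗ z.1 - z.1 ∘ₗ Λ) - (z.2.2.2.1 ∘ₗ φ - ψ ∘ₗ z.2.2.2.2),
    bb l z.2.1 + c z.2.2.1 + τU (φ ∘ₗ z.2.2.2.1) - τY (z.2.2.2.2 ∘ₗ ψ))
  map_add' z w := by
    simp only [Prod.fst_add, Prod.snd_add, map_add, LinearMap.comp_add, LinearMap.add_comp,
      Prod.mk_add_mk]
    refine Prod.ext rfl (Prod.ext ?_ (Prod.ext ?_ (Prod.ext ?_ ?_))) <;> simp only <;> abel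
  map_smul' t z := by
    simp only [Prod.smul_fst, Prod.smul_snd, map_smul, LinearMap.comp_smul, LinearMap.smul_comp,
      Prod.smul_mk, RingHom.id_apply, smul_sub, smul_add]

variable {a : S →ₗ[ℂ] A} {ρU : S →ₗ[ℂ] U →ₗ[ℂ] U} {ρY : S →ₗ[ℂ] Y →ₗ[ℂ] Y}
  {bb : N →ₗ[ℂ] S →ₗ[ℂ] N} {c : E →ₗ[ℂ] N} {τU : (U →ₗ[ℂ] U) →ₗ[ℂ] N}
  {τY : (Y →ₗ[ℂ] Y) →ₗ[ℂ] N}

lemma sysMap_apply (Λ : V →ₗ[ℂ] V) (l : N) (φ : V →ₗ[ℂ] U) (ψ : Y →ₗ[ℂ] V)
    (z : (V →ₗ[ℂ] V) × S × E × (U →ₗ[ℂ] V) × (V →ₗ[ℂ] Y)) :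
    sysMap a ρU ρY bb c τU τY Λ l φ ψ z =
    (a z.2.1, φ ∘ₗ z.1 - ρU z.2.1 ∘ₗ φ, z.1 ∘ₗ ψ - ψ ∘ₗ ρY z.2.1,
    (Λ ∘ₗ z.1 - z.1 ∘ₗ Λ) - (z.2.2.2.1 ∘ₗ φ - ψ ∘ₗ z.2.2.2.2),
    bb l z.2.1 + c z.2.2.1 + τU (φ ∘ₗ z.2.2.2.1) - τY (z.2.2.2.2 ∘ₗ ψ)) := rfl

lemma ks2_iff {Λ : V →ₗ[ℂ] V} {φ : V →ₗ[ℂ] U} {ψ : Y →ₗ[ℂ] V} {l : N} :
    KS2 a ρU ρY bb c τU τY Λ φ ψ l ↔
      Function.Injective (sysMap a ρU ρY bb c τU τY Λ l φ ψ) := by
  rw [injective_iff_map_eq_zero]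
  constructor
  · intro h z hz
    obtain ⟨σ, s, x, m, p⟩ := z
    have e1 := congrArg Prod.fst hz
    have e2 := congrArg (fun z => z.2.1) hz
    have e3 := congrArg (fun z => z.2.2.1) hz
    have e4 := congrArg (fun z => z.2.2.2.1) hz
    have e5 := congrArg (fun z => z.2.2.2.2) hz
    obtain ⟨r1, r2, r3, r4, r5⟩ := h σ s x m p e1 (sub_eq_zero.1 e2) (sub_eq_zero.1 e3)
      (sub_eq_zero.1 e4) e5
    rw [r1, r2, r3, r4, r5]
    rfl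
  · intro h σ s x m p h1 h2 h3 h4 h5
    have h6 := h (σ, s, x, m, p) (by
      refine Prod.ext h1 (Prod.ext ?_ (Prod.ext ?_ (Prod.ext ?_ h5)))
      · exact sub_eq_zero.2 h2
      · exact sub_eq_zero.2 h3
      · exact sub_eq_zero.2 h4)
    exact ⟨congrArg Prod.fst h6, congrArg (fun z => z.2.1) h6, congrArg (fun z => z.2.2.1) h6,
      congrArg (fun z => z.2.2.2.1) h6, congrArg (fun z => z.2.2.2.2) h6⟩

lemma sysMap_line_out (Λ : V →ₗ[ℂ] V) (l : N) (φ φ₁ : V →ₗ[ℂ] U) (ψ : Y →ₗ[ℂ] V) (t : ℂ) :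
    sysMap a ρU ρY bb c τU τY Λ l (φ + t • φ₁) ψ = sysMap a ρU ρY bb c τU τY Λ l φ ψ +
      t • (sysMap a ρU ρY bb c τU τY Λ l φ₁ ψ - sysMap a ρU ρY bb c τU τY Λ l 0 ψ) := by
  apply LinearMap.ext
  intro z
  simp only [LinearMap.add_apply, LinearMap.smul_apply, LinearMap.sub_apply, sysMap_apply]
  simp only [LinearMap.add_comp, LinearMap.comp_add, LinearMap.smul_comp, LinearMap.comp_smul,
    LinearMap.zero_comp, LinearMap.comp_zero, map_add, map_smul, map_zero, Prod.mk_sub_mk,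
    Prod.smul_mk, Prod.mk_add_mk, sub_self, smul_zero, add_zero, sub_zero, zero_sub]
  refine Prod.ext rfl (Prod.ext ?_ (Prod.ext ?_ (Prod.ext ?_ ?_))) <;> simp only <;> module

lemma sysMap_line_in (Λ : V →ₗ[ℂ] V) (l : N) (φ : V →ₗ[ℂ] U) (ψ ψ₁ : Y →ₗ[ℂ] V) (t : ℂ) :
    sysMap a ρU ρY bb c τU τY Λ l φ (ψ + t • ψ₁) = sysMap a ρU ρY bb c τU τY Λ l φ ψ +
      t • (sysMap a ρU ρY bb c τU τY Λ l φ ψ₁ - sysMap a ρU ρY bb c τU τY Λ l φ 0) := by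
  apply LinearMap.ext
  intro z
  simp only [LinearMap.add_apply, LinearMap.smul_apply, LinearMap.sub_apply, sysMap_apply]
  simp only [LinearMap.add_comp, LinearMap.comp_add, LinearMap.smul_comp, LinearMap.comp_smul,
    LinearMap.zero_comp, LinearMap.comp_zero, map_add, map_smul, map_zero, Prod.mk_sub_mk,
    Prod.smul_mk, Prod.mk_add_mk, sub_self, smul_zero, add_zero, sub_zero, zero_sub]
  refine Prod.ext rfl (Prod.ext ?_ (Prod.ext ?_ (Prod.ext ?_ ?_))) <;> simp only <;> module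

variable [FiniteDimensional ℂ V] [FiniteDimensional ℂ U] [FiniteDimensional ℂ Y]
  [FiniteDimensional ℂ S] [FiniteDimensional ℂ E]

/-- perturbation of the outgoing arrows -/
lemma KS2.perturb_out {Λ : V →ₗ[ℂ] V} {φ : V →ₗ[ℂ] U} {ψ : Y →ₗ[ℂ] V} {l : N}
    (h : KS2 a ρU ρY bb c τU τY Λ φ ψ l) (φ₁ : V →ₗ[ℂ] U)
    (h1 : Function.Injective (φ₁ ∘ₗ ψ)) :
    ∃ φ' : V →ₗ[ℂ] U, Function.Injective (φ' ∘ₗ ψ) ∧ KS2 a ρU ρY bb c τU τY Λ φ' ψ l := by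
  have f1 := finite_not_injective _
    (sysMap a ρU ρY bb c τU τY Λ l φ₁ ψ - sysMap a ρU ρY bb c τU τY Λ l 0 ψ) (ks2_iff.1 h)
  have f2 := finite_not_injective' (φ ∘ₗ ψ) (φ₁ ∘ₗ ψ) h1
  obtain ⟨t, ht⟩ := (f1.union f2).infinite_compl.nonempty
  rw [Set.mem_compl_iff, Set.mem_union, not_or] at ht
  refine ⟨φ + t • φ₁, ?_, ?_⟩
  · have := not_not.1 ht.2
    rw [LinearMap.add_comp, LinearMap.smul_comp]
    exact this
  · rw [ks2_iff, sysMap_line_out]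
    exact not_not.1 ht.1

/-- perturbation of the incoming arrows -/
lemma KS2.perturb_in {Λ : V →ₗ[ℂ] V} {φ : V →ₗ[ℂ] U} {ψ : Y →ₗ[ℂ] V} {l : N}
    (h : KS2 a ρU ρY bb c τU τY Λ φ ψ l) (ψ₁ : Y →ₗ[ℂ] V)
    (h1 : Function.Injective (φ ∘ₗ ψ₁)) :
    ∃ ψ' : Y →ₗ[ℂ] V, Function.Injective (φ ∘ₗ ψ') ∧ KS2 a ρU ρY bb c τU τY Λ φ ψ' l := by
  have f1 := finite_not_injective _
    (sysMap a ρU ρY bb c τU τY Λ l φ ψ₁ - sysMap a ρU ρY bb c τU τY Λ l φ 0) (ks2_iff.1 h)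
  have f2 := finite_not_injective' (φ ∘ₗ ψ) (φ ∘ₗ ψ₁) h1
  obtain ⟨t, ht⟩ := (f1.union f2).infinite_compl.nonempty
  rw [Set.mem_compl_iff, Set.mem_union, not_or] at ht
  refine ⟨ψ + t • ψ₁, ?_, ?_⟩
  · have := not_not.1 ht.2
    rw [LinearMap.comp_add, LinearMap.comp_smul]
    exact this
  · rw [ks2_iff, sysMap_line_in]
    exact not_not.1 ht.1

end generic

end Pool.Agent.Helper6.AF2
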