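import Mathlib

set_option autoImplicit false

namespace Pool.Agent.Helper6.AF2

section

variable {V W U Y K S N A E : Type}
  [AddCommGroup V] [Module ℂ V] [AddCommGroup W] [Module ℂ W] [AddCommGroup U] [Module ℂ U]
  [AddCommGroup Y] [Module ℂ Y] [AddCommGroup K] [Module ℂ K]
  [AddCommGroup S] [Module ℂ S] [AddCommGroup N] [Module ℂ N]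
  [AddCommGroup A] [Module ℂ A] [AddCommGroup E] [Module ℂ E]

/-- kernel system at a vertex with outgoing arrows `φ` and incoming arrows `ψ` -/
def KS2 (a : S →ₗ[ℂ] A) (ρU : S →ₗ[ℂ] U →ₗ[ℂ] U) (ρY : S →ₗ[ℂ] Y →ₗ[ℂ] Y)
    (bb : N →ₗ[ℂ] S →ₗ[ℂ] N) (c : E →ₗ[ℂ] N) (τU : (U →ₗ[ℂ] U) →ₗ[ℂ] N)
    (τY : (Y →ₗ[ℂ] Y) →ₗ[ℂ] N) (Λ : V →ₗ[ℂ] V) (φ : V →ₗ[ℂ] U) (ψ : Y →ₗ[ℂ] V) (l : N) : Prop :=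
  ∀ (σ : V →ₗ[ℂ] V) (s : S) (x : E) (m : U →ₗ[ℂ] V) (p : V →ₗ[ℂ] Y), a s = 0 →
    φ ∘ₗ σ = ρU s ∘ₗ φ → σ ∘ₗ ψ = ψ ∘ₗ ρY s →
    Λ ∘ₗ σ - σ ∘ₗ Λ = m ∘ₗ φ - ψ ∘ₗ p →
    bb l s + c x + τU (φ ∘ₗ m) - τY (p ∘ₗ ψ) = 0 →
    σ = 0 ∧ s = 0 ∧ x = 0 ∧ m = 0 ∧ p = 0

/-- the reduced system -/
def KR (a : S →ₗ[ℂ] A) (ρU : S →ₗ[ℂ] U →ₗ[ℂ] U) (ρY : S →ₗ[ℂ] Y →ₗ[ℂ] Y)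
    (bb : N →ₗ[ℂ] S →ₗ[ℂ] N) (c : E →ₗ[ℂ] N) (τU : (U →ₗ[ℂ] U) →ₗ[ℂ] N)
    (τY : (Y →ₗ[ℂ] Y) →ₗ[ℂ] N) (L : K →ₗ[ℂ] K) (χ : K →ₗ[ℂ] U) (θ : Y →ₗ[ℂ] U) (l : N) : Prop :=
  ∀ (σ : K →ₗ[ℂ] K) (s : S) (x : E) (κ : U →ₗ[ℂ] K) (q : K →ₗ[ℂ] Y) (p : U →ₗ[ℂ] Y), a s = 0 →
    θ ∘ₗ ρY s = ρU s ∘ₗ θ → κ ∘ₗ θ = 0 →
    L ∘ₗ σ - σ ∘ₗ L = κ ∘ₗ χ →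
    ρU s ∘ₗ χ - χ ∘ₗ σ = θ ∘ₗ q →
    bb l s + c x + τU (χ ∘ₗ κ) + τU (θ ∘ₗ p) - τY (p ∘ₗ θ) = 0 →
    σ = 0 ∧ s = 0 ∧ x = 0 ∧ κ = 0 ∧ q = 0 ∧ p = 0

/-- the system after deletion of the vertex -/
def KD (a : S →ₗ[ℂ] A) (ρU : S →ₗ[ℂ] U →ₗ[ℂ] U) (ρY : S →ₗ[ℂ] Y →ₗ[ℂ] Y)
    (bb : N →ₗ[ℂ] S →ₗ[ℂ] N) (c : E →ₗ[ℂ] N) (τU : (U →ₗ[ℂ] U) →ₗ[ℂ] N)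
    (τY : (Y →ₗ[ℂ] Y) →ₗ[ℂ] N) (θ : Y →ₗ[ℂ] U) (l : N) : Prop :=
  ∀ (s : S) (x : E) (p : U →ₗ[ℂ] Y), a s = 0 →
    θ ∘ₗ ρY s = ρU s ∘ₗ θ →
    bb l s + c x + τU (θ ∘ₗ p) - τY (p ∘ₗ θ) = 0 →
    s = 0 ∧ x = 0 ∧ p = 0

end

end Pool.Agent.Helper6.AF2
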