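import Pool.Agent.Helper6.AF2.Core

set_option autoImplicit false

namespace Pool.Agent.Helper6.AF2

section

variable {V V2 U Y K S N A E : Type}
  [AddCommGroup V] [Module ℂ V] [AddCommGroup V2] [Module ℂ V2] [AddCommGroup U] [Module ℂ U]
  [AddCommGroup Y] [Module ℂ Y] [AddCommGroup K] [Module ℂ K]
  [AddCommGroup S] [Module ℂ S] [AddCommGroup N] [Module ℂ N]
  [AddCommGroup A] [Module ℂ A] [AddCommGroup E] [Module ℂ E]

variable {a : S →ₗ[ℂ] A} {ρU : S →ₗ[ℂ] U →ₗ[ℂ] U} {ρY : S →ₗ[ℂ] Y →ₗ[ℂ] Y}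
  {bb : N →ₗ[ℂ] S →ₗ[ℂ] N} {c : E →ₗ[ℂ] N} {τU : (U →ₗ[ℂ] U) →ₗ[ℂ] N}
  {τY : (Y →ₗ[ℂ] Y) →ₗ[ℂ] N}

/-- From the big standard position to the reduced system. -/
lemma KS2.big_to_red (hU : ∀ P s, τU (P ∘ₗ ρU s - ρU s ∘ₗ P) = bb (τU P) s)
    {Λ : (K × U) →ₗ[ℂ] (K × U)} {θ : Y →ₗ[ℂ] U} {l : N}
    (h : KS2 a ρU ρY bb c τU τY Λ (LinearMap.snd ℂ K U) (LinearMap.inr ℂ K U ∘ₗ θ) l) :
    KR a ρU ρY bb c τU τY (LinearMap.fst ℂ K U ∘ₗ Λ ∘ₗ LinearMap.inl ℂ K U)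
      (LinearMap.snd ℂ K U ∘ₗ Λ ∘ₗ LinearMap.inl ℂ K U) θ
      (l + τU (LinearMap.snd ℂ K U ∘ₗ Λ ∘ₗ LinearMap.inr ℂ K U)) := by
  intro σ s x κ q p h1 h2 h3 h4 h5 h6
  have h2' : ∀ y, θ (ρY s y) = ρU s (θ y) := fun y => LinearMap.congr_fun h2 y
  have h3' : ∀ y, κ (θ y) = 0 := fun y => LinearMap.congr_fun h3 y
  have h4' : ∀ k, (Λ (σ k, 0)).1 - σ (Λ (k, 0)).1 = κ (Λ (k, 0)).2 :=
    fun k => LinearMap.congr_fun h4 k
  have h5' : ∀ k, ρU s (Λ (k, 0)).2 - (Λ (σ k, 0)).2 = θ (q k) :=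
    fun k => LinearMap.congr_fun h5 k
  let G : (K × U) →ₗ[ℂ] (K × U) := LinearMap.prod
    (σ ∘ₗ LinearMap.fst ℂ K U + κ ∘ₗ LinearMap.snd ℂ K U) (ρU s ∘ₗ LinearMap.snd ℂ K U)
  have hG : ∀ z, G z = (σ z.1 + κ z.2, ρU s z.2) := fun _ => rfl
  let m : U →ₗ[ℂ] (K × U) := (Λ ∘ₗ G - G ∘ₗ Λ) ∘ₗ LinearMap.inr ℂ K U +
    LinearMap.inr ℂ K U ∘ₗ θ ∘ₗ p
  let P : (K × U) →ₗ[ℂ] Y := LinearMap.coprod q p
  have hP : ∀ z, P z = q z.1 + p z.2 := fun z => by simp [P]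
  have hk : ∀ k : K, Λ (G (k, 0)) - G (Λ (k, 0)) = -(0, θ (q k)) := by
    intro k
    have e1 : G (k, 0) = (σ k, 0) := by rw [hG]; simp
    rw [e1]
    refine Prod.ext ?_ ?_
    · rw [Prod.fst_sub, hG]
      change (Λ (σ k, 0)).1 - (σ (Λ (k, 0)).1 + κ (Λ (k, 0)).2) = -0
      rw [← h4' k]
      abel
    · rw [Prod.snd_sub, hG]
      change (Λ (σ k, 0)).2 - ρU s (Λ (k, 0)).2 = -(θ (q k))
      rw [← h5' k]
      abel
  have hsnd : LinearMap.snd ℂ K U ∘ₗ m = (LinearMap.snd ℂ K U ∘ₗ Λ ∘ₗ LinearMap.inl ℂ K U) ∘ₗ κ +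
      ((LinearMap.snd ℂ K U ∘ₗ Λ ∘ₗ LinearMap.inr ℂ K U) ∘ₗ ρU s -
        ρU s ∘ₗ (LinearMap.snd ℂ K U ∘ₗ Λ ∘ₗ LinearMap.inr ℂ K U)) + θ ∘ₗ p := by
    apply LinearMap.ext
    intro u
    change (Λ (G (0, u)) - G (Λ (0, u)) + (0, θ (p u))).2 =
      (Λ (κ u, 0)).2 + ((Λ (0, ρU s u)).2 - ρU s (Λ (0, u)).2) + θ (p u)
    have e1 : G (0, u) = (κ u, 0) + (0, ρU s u) := by rw [hG]; simp
    rw [e1, map_add, hG]
    change (Λ (κ u, 0)).2 + (Λ (0, ρU s u)).2 - ρU s (Λ (0, u)).2 + θ (p u) = _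
    abel
  have hPinr : P ∘ₗ LinearMap.inr ℂ K U ∘ₗ θ = p ∘ₗ θ := by
    apply LinearMap.ext
    intro y
    change P (0, θ y) = p (θ y)
    rw [hP]
    simp
  obtain ⟨r1, r2, r3, r4, r5⟩ := h G s x m P h1
    (by
      apply LinearMap.ext
      intro z
      rfl)
    (by
      apply LinearMap.ext
      intro y
      change G (0, θ y) = (0, θ (ρY s y))
      rw [hG, h2']
      simp [h3'])
    (by
      apply LinearMap.ext
      rintro ⟨k, u⟩
      have e0 : ((k, u) : K × U) = (k, 0) + (0, u) := by simp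
      change Λ (G (k, u)) - G (Λ (k, u)) =
        (Λ (G (0, u)) - G (Λ (0, u)) + (0, θ (p u))) - (0, θ (P (k, u)))
      have e2 : P (k, u) = q k + p u := hP _
      have e3 : ((0, θ (q k + p u)) : K × U) = (0, θ (q k)) + (0, θ (p u)) := by
        rw [map_add]; simp
      have e4 := hk k
      rw [e2, e3, e0, map_add, map_add, map_add, map_add]
      have e5 : Λ (G (k, 0)) = G (Λ (k, 0)) - (0, θ (q k)) := by
        rw [sub_eq_iff_eq_add] at e4
        rw [e4]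
        abel
      rw [e5]
      abel)
    (by
      rw [hsnd, hPinr, map_add, map_add, hU]
      rw [map_add, LinearMap.add_apply] at h6
      rw [← h6]
      abel)
  refine ⟨?_, r2, r3, ?_, ?_, ?_⟩
  · apply LinearMap.ext
    intro k
    have := congrArg Prod.fst (LinearMap.congr_fun r1 ((k, 0) : K × U))
    rw [hG] at this
    simpa using this
  · apply LinearMap.ext
    intro u
    have := congrArg Prod.fst (LinearMap.congr_fun r1 ((0, u) : K × U))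
    rw [hG] at this
    simpa using this
  · apply LinearMap.ext
    intro k
    have := LinearMap.congr_fun r5 ((k, 0) : K × U)
    rw [hP] at this
    simpa using this
  · apply LinearMap.ext
    intro u
    have := LinearMap.congr_fun r5 ((0, u) : K × U)
    rw [hP] at this
    simpa using this

/-- From the reduced system to the big standard position. -/
lemma KR.to_big {L : K →ₗ[ℂ] K} {χ : K →ₗ[ℂ] U} {θ : Y →ₗ[ℂ] U} {l : N}
    (h : KR a ρU ρY bb c τU τY L χ θ l) :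
    KS2 a ρU ρY bb c τU τY ((LinearMap.prod L χ) ∘ₗ LinearMap.fst ℂ K U) (LinearMap.snd ℂ K U)
      (LinearMap.inr ℂ K U ∘ₗ θ) l := by
  intro G s x m P h1 h2 h3 h4 h5
  have h2' : ∀ z, (G z).2 = ρU s z.2 := fun z => LinearMap.congr_fun h2 z
  have h3' : ∀ y, G (0, θ y) = (0, θ (ρY s y)) := fun y => LinearMap.congr_fun h3 y
  have h4' : ∀ z, (L (G z).1, χ (G z).1) - G (L z.1, χ z.1) = m z.2 - (0, θ (P z)) :=
    fun z => LinearMap.congr_fun h4 z
  let σ : K →ₗ[ℂ] K := LinearMap.fst ℂ K U ∘ₗ G ∘ₗ LinearMap.inl ℂ K U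
  let κ : U →ₗ[ℂ] K := LinearMap.fst ℂ K U ∘ₗ G ∘ₗ LinearMap.inr ℂ K U
  let q : K →ₗ[ℂ] Y := P ∘ₗ LinearMap.inl ℂ K U
  let p : U →ₗ[ℂ] Y := P ∘ₗ LinearMap.inr ℂ K U
  have hG : ∀ k u, G (k, u) = (σ k + κ u, ρU s u) := by
    intro k u
    refine Prod.ext ?_ (h2' _)
    have e0 : ((k, u) : K × U) = (k, 0) + (0, u) := by simp
    rw [e0, map_add]
    rfl
  have hP : ∀ k u, P (k, u) = q k + p u := by
    intro k u
    have e0 : ((k, u) : K × U) = (k, 0) + (0, u) := by simp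
    rw [e0, map_add]
    rfl
  have hk : ∀ k, (L (σ k), χ (σ k)) - (σ (L k) + κ (χ k), ρU s (χ k)) = -(0, θ (q k)) := by
    intro k
    have := h4' (k, 0)
    rw [hG k 0] at this
    change (L (σ k + κ 0), χ (σ k + κ 0)) - G (L k, χ k) = m 0 - (0, θ (P (k, 0))) at this
    rw [hG, hP, map_zero, map_zero, map_zero, add_zero, add_zero, zero_sub] at this
    exact this
  have hu : ∀ u, m u = (L (κ u), χ (κ u) + θ (p u)) := by
    intro u
    have := h4' (0, u)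
    rw [hG 0 u] at this
    change (L (σ 0 + κ u), χ (σ 0 + κ u)) - G (L 0, χ 0) = m u - (0, θ (P (0, u))) at this
    rw [hP, map_zero, map_zero, map_zero, map_zero, zero_add, zero_add] at this
    have e1 : G ((0, 0) : K × U) = 0 := map_zero G
    rw [e1, sub_zero] at this
    rw [eq_sub_iff_add_eq] at this
    rw [← this]
    simp
  have hm : LinearMap.snd ℂ K U ∘ₗ m = χ ∘ₗ κ + θ ∘ₗ p := by
    apply LinearMap.ext
    intro u
    change (m u).2 = _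
    rw [hu]
    rfl
  obtain ⟨r1, r2, r3, r4, r5, r6⟩ := h σ s x κ q p h1
    (by
      apply LinearMap.ext
      intro y
      have := congrArg Prod.snd (h3' y)
      rw [hG] at this
      exact this.symm)
    (by
      apply LinearMap.ext
      intro y
      have := congrArg Prod.fst (h3' y)
      rw [hG] at this
      simpa using this)
    (by
      apply LinearMap.ext
      intro k
      have := congrArg Prod.fst (hk k)
      change L (σ k) - (σ (L k) + κ (χ k)) = -0 at this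
      rw [neg_zero, sub_eq_zero] at this
      change L (σ k) - σ (L k) = κ (χ k)
      rw [this]
      abel)
    (by
      apply LinearMap.ext
      intro k
      have := congrArg Prod.snd (hk k)
      change χ (σ k) - ρU s (χ k) = -(θ (q k)) at this
      change ρU s (χ k) - χ (σ k) = θ (q k)
      rw [← neg_sub, this, neg_neg])
    (by
      rw [hm, map_add] at h5
      rw [← h5]
      change _ = bb l s + c x + (τU (χ ∘ₗ κ) + τU (θ ∘ₗ p)) - τY (p ∘ₗ θ)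
      abel)
  refine ⟨?_, r2, r3, ?_, ?_⟩
  · apply LinearMap.ext
    rintro ⟨k, u⟩
    rw [hG, r1, r2, r4]
    simp
  · apply LinearMap.ext
    intro u
    rw [hu, r4, r6]
    simp
  · apply LinearMap.ext
    rintro ⟨k, u⟩
    rw [hP, r5, r6]
    simp

/-- From the small standard position to the reduced system. -/
lemma KS2.small_to_red (hU : ∀ P s, τU (P ∘ₗ ρU s - ρU s ∘ₗ P) = bb (τU P) s)
    (hY : ∀ P s, τY (P ∘ₗ ρY s - ρY s ∘ₗ P) = bb (τY P) s)
    {Λ : (Y × K) →ₗ[ℂ] (Y × K)} {θ : Y →ₗ[ℂ] U} {χ : K →ₗ[ℂ] U} {l : N}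
    (hθ : Function.Injective θ)
    (hs : KS2 a ρU ρY bb c τU τY Λ (LinearMap.coprod θ χ) (LinearMap.inl ℂ Y K) l) :
    ∃ (L : K →ₗ[ℂ] K) (l' : N), KR a ρU ρY bb c τU τY L χ θ l' := by
  obtain ⟨r, hr⟩ := θ.exists_leftInverse_of_injective (LinearMap.ker_eq_bot.2 hθ)
  have hr' : ∀ y, r (θ y) = y := fun y => LinearMap.congr_fun hr y
  let LYY : Y →ₗ[ℂ] Y := LinearMap.fst ℂ Y K ∘ₗ Λ ∘ₗ LinearMap.inl ℂ Y K
  let LKY : Y →ₗ[ℂ] K := LinearMap.snd ℂ Y K ∘ₗ Λ ∘ₗ LinearMap.inl ℂ Y K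
  let LKK : K →ₗ[ℂ] K := LinearMap.snd ℂ Y K ∘ₗ Λ ∘ₗ LinearMap.inr ℂ Y K
  let h : U →ₗ[ℂ] K := LKY ∘ₗ r
  have hh : ∀ y, h (θ y) = LKY y := by
    intro y
    change LKY (r (θ y)) = _
    rw [hr']
  have hΛ2 : ∀ y k, (Λ (y, k)).2 = h (θ y) + LKK k := by
    intro y k
    have e0 : ((y, k) : Y × K) = (y, 0) + (0, k) := by simp
    rw [e0, map_add, hh]
    rfl
  have hφ : ∀ y k, LinearMap.coprod θ χ (y, k) = θ y + χ k := fun y k => by simp
  refine ⟨LKK - h ∘ₗ χ, l + τY LYY + τU (χ ∘ₗ h), ?_⟩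
  intro σ s x κ q p h1 h2 h3 h4 h5 h6
  have h2' : ∀ y, θ (ρY s y) = ρU s (θ y) := fun y => LinearMap.congr_fun h2 y
  have h3' : ∀ y, κ (θ y) = 0 := fun y => LinearMap.congr_fun h3 y
  have h4' : ∀ k, (LKK (σ k) - h (χ (σ k))) - σ (LKK k - h (χ k)) = κ (χ k) :=
    fun k => LinearMap.congr_fun h4 k
  have h5' : ∀ k, ρU s (χ k) - χ (σ k) = θ (q k) := fun k => LinearMap.congr_fun h5 k
  let G : (Y × K) →ₗ[ℂ] (Y × K) := LinearMap.prod
    (ρY s ∘ₗ LinearMap.fst ℂ Y K + q ∘ₗ LinearMap.snd ℂ Y K) (σ ∘ₗ LinearMap.snd ℂ Y K)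
  have hG : ∀ z, G z = (ρY s z.1 + q z.2, σ z.2) := fun _ => rfl
  let m : U →ₗ[ℂ] (Y × K) := LinearMap.prod (p - q ∘ₗ h) (κ + h ∘ₗ ρU s - σ ∘ₗ h)
  have hm : ∀ u, m u = (p u - q (h u), κ u + h (ρU s u) - σ (h u)) := fun _ => rfl
  let P : (Y × K) →ₗ[ℂ] Y := LinearMap.fst ℂ Y K ∘ₗ
    (m ∘ₗ LinearMap.coprod θ χ - (Λ ∘ₗ G - G ∘ₗ Λ))
  have hP : ∀ z, P z = (m (LinearMap.coprod θ χ z) - (Λ (G z) - G (Λ z))).1 := fun _ => rfl
  have hPinl : P ∘ₗ LinearMap.inl ℂ Y K = p ∘ₗ θ - (LYY ∘ₗ ρY s - ρY s ∘ₗ LYY) := by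
    apply LinearMap.ext
    intro y
    change P (y, 0) = p (θ y) - ((Λ (ρY s y, 0)).1 - ρY s (Λ (y, 0)).1)
    have e1 : G ((y, 0) : Y × K) = (ρY s y, 0) := by rw [hG]; simp
    have e2 : (G (Λ (y, 0))).1 = ρY s (Λ (y, 0)).1 + q (Λ (y, 0)).2 := by rw [hG]
    have e3 : (Λ ((y, 0) : Y × K)).2 = h (θ y) := by rw [hΛ2]; simp
    rw [hP, e1, hφ, map_zero, add_zero, Prod.fst_sub, Prod.fst_sub, e2, e3, hm]
    change (p (θ y) - q (h (θ y))) - _ = _
    abel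
  have hφm : LinearMap.coprod θ χ ∘ₗ m = θ ∘ₗ p + χ ∘ₗ κ +
      ((χ ∘ₗ h) ∘ₗ ρU s - ρU s ∘ₗ (χ ∘ₗ h)) := by
    apply LinearMap.ext
    intro u
    change LinearMap.coprod θ χ (m u) = θ (p u) + χ (κ u) + (χ (h (ρU s u)) - ρU s (χ (h u)))
    have e1 := h5' (h u)
    rw [hm, hφ, map_sub, map_sub, map_add, ← e1]
    abel
  obtain ⟨r1, r2, r3, r4, r5⟩ := hs G s x m P h1
    (by
      apply LinearMap.ext
      rintro ⟨y, k⟩
      change LinearMap.coprod θ χ (G (y, k)) = ρU s (LinearMap.coprod θ χ (y, k))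
      rw [hG, hφ, hφ, map_add, map_add, h2', ← h5']
      abel)
    (by
      apply LinearMap.ext
      intro y
      change G (y, 0) = (ρY s y, 0)
      rw [hG]
      simp)
    (by
      apply LinearMap.ext
      rintro ⟨y, k⟩
      change Λ (G (y, k)) - G (Λ (y, k)) = m (LinearMap.coprod θ χ (y, k)) - (P (y, k), 0)
      refine Prod.ext ?_ ?_
      · change (Λ (G (y, k)) - G (Λ (y, k))).1 = (m (LinearMap.coprod θ χ (y, k))).1 - P (y, k)
        rw [hP, Prod.fst_sub, Prod.fst_sub, Prod.fst_sub]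
        abel
      · change (Λ (G (y, k)) - G (Λ (y, k))).2 = (m (LinearMap.coprod θ χ (y, k))).2 - 0
        rw [Prod.snd_sub, hφ, hm, hG, hΛ2, hG]
        change h (θ (ρY s y + q k)) + LKK (σ k) - σ (Λ (y, k)).2 =
          κ (θ y + χ k) + h (ρU s (θ y + χ k)) - σ (h (θ y + χ k)) - 0
        have e1 := h4' k
        have e2 := h5' k
        rw [hΛ2, map_add θ, h2', ← e2]
        simp only [map_add, map_sub] at e1 ⊢
        rw [h3', ← e1]
        abel)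
    (by
      rw [hφm, hPinl, map_add, map_add, map_sub τY, hU, hY]
      simp only [map_add, LinearMap.add_apply] at h6
      rw [← h6]
      abel)
  have hσ0 : σ = 0 := by
    apply LinearMap.ext
    intro k
    have := congrArg Prod.snd (LinearMap.congr_fun r1 ((0, k) : Y × K))
    rw [hG] at this
    simpa using this
  have hq0 : q = 0 := by
    apply LinearMap.ext
    intro k
    have := congrArg Prod.fst (LinearMap.congr_fun r1 ((0, k) : Y × K))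
    rw [hG] at this
    simpa using this
  refine ⟨hσ0, r2, r3, ?_, hq0, ?_⟩
  · apply LinearMap.ext
    intro u
    have := congrArg Prod.snd (LinearMap.congr_fun r4 u)
    rw [hm, hσ0, r2] at this
    simpa using this
  · apply LinearMap.ext
    intro u
    have := congrArg Prod.fst (LinearMap.congr_fun r4 u)
    rw [hm, hq0] at this
    simpa using this

/-- From the reduced system to the small standard position. -/
lemma KR.to_small {L : K →ₗ[ℂ] K} {χ : K →ₗ[ℂ] U} {θ : Y →ₗ[ℂ] U} {l : N}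
    (h : KR a ρU ρY bb c τU τY L χ θ l) :
    KS2 a ρU ρY bb c τU τY (LinearMap.inr ℂ Y K ∘ₗ L ∘ₗ LinearMap.snd ℂ Y K)
      (LinearMap.coprod θ χ) (LinearMap.inl ℂ Y K) l := by
  intro G s x m P h1 h2 h3 h4 h5
  have hφ : ∀ y k, LinearMap.coprod θ χ (y, k) = θ y + χ k := fun y k => by simp
  have h2' : ∀ z, LinearMap.coprod θ χ (G z) = ρU s (LinearMap.coprod θ χ z) :=
    fun z => LinearMap.congr_fun h2 z
  have h3' : ∀ y, G (y, 0) = (ρY s y, 0) := fun y => LinearMap.congr_fun h3 y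
  have h4' : ∀ z, (0, L (G z).2) - G (0, L z.2) = m (LinearMap.coprod θ χ z) - (P z, 0) :=
    fun z => LinearMap.congr_fun h4 z
  let σ : K →ₗ[ℂ] K := LinearMap.snd ℂ Y K ∘ₗ G ∘ₗ LinearMap.inr ℂ Y K
  let q : K →ₗ[ℂ] Y := LinearMap.fst ℂ Y K ∘ₗ G ∘ₗ LinearMap.inr ℂ Y K
  let κ : U →ₗ[ℂ] K := LinearMap.snd ℂ Y K ∘ₗ m
  let p : U →ₗ[ℂ] Y := LinearMap.fst ℂ Y K ∘ₗ m
  have hm : ∀ u, m u = (p u, κ u) := fun _ => rfl
  have hG : ∀ y k, G (y, k) = (ρY s y + q k, σ k) := by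
    intro y k
    have e0 : ((y, k) : Y × K) = (y, 0) + (0, k) := by simp
    rw [e0, map_add, h3']
    refine Prod.ext ?_ ?_
    · rfl
    · change 0 + σ k = σ k
      rw [zero_add]
  have hyk : ∀ y k, L (σ k) - σ (L k) = κ (θ y + χ k) ∧
      -(q (L k)) = p (θ y + χ k) - P (y, k) := by
    intro y k
    have := h4' (y, k)
    rw [hG y k] at this
    change (0, L (σ k)) - G (0, L k) = _ at this
    rw [hG, hφ, hm, map_zero, zero_add] at this
    constructor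
    · have e := congrArg Prod.snd this
      change L (σ k) - σ (L k) = κ (θ y + χ k) - 0 at e
      rw [e, sub_zero]
    · have e := congrArg Prod.fst this
      change 0 - q (L k) = p (θ y + χ k) - P (y, k) at e
      rw [← e, zero_sub]
  have hκθ : ∀ y, κ (θ y) = 0 := by
    intro y
    have := (hyk y 0).1
    simp only [map_zero, add_zero, sub_zero] at this
    exact this.symm
  have hφm : LinearMap.coprod θ χ ∘ₗ m = θ ∘ₗ p + χ ∘ₗ κ := by
    apply LinearMap.ext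
    intro u
    change LinearMap.coprod θ χ (m u) = _
    rw [hm, hφ]
    rfl
  have hPinl : P ∘ₗ LinearMap.inl ℂ Y K = p ∘ₗ θ := by
    apply LinearMap.ext
    intro y
    change P (y, 0) = p (θ y)
    have := (hyk y 0).2
    rw [map_zero, map_zero, map_zero, neg_zero, add_zero] at this
    exact (sub_eq_zero.1 this.symm).symm
  obtain ⟨r1, r2, r3, r4, r5, r6⟩ := h σ s x κ q p h1
    (by
      apply LinearMap.ext
      intro y
      have := h2' (y, 0)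
      rw [h3', hφ, hφ] at this
      simpa using this)
    (by
      apply LinearMap.ext
      intro y
      exact hκθ y)
    (by
      apply LinearMap.ext
      intro k
      have := (hyk 0 k).1
      rw [map_zero, zero_add] at this
      exact this)
    (by
      apply LinearMap.ext
      intro k
      have := h2' (0, k)
      rw [hG, hφ, hφ, map_zero, map_zero, zero_add, zero_add] at this
      change ρU s (χ k) - χ (σ k) = θ (q k)
      rw [← this]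
      abel)
    (by
      rw [hφm, hPinl, map_add] at h5
      rw [← h5]
      abel)
  refine ⟨?_, r2, r3, ?_, ?_⟩
  · apply LinearMap.ext
    rintro ⟨y, k⟩
    rw [hG, r1, r2, r5]
    simp
  · apply LinearMap.ext
    intro u
    rw [hm, r4, r6]
    simp
  · apply LinearMap.ext
    rintro ⟨y, k⟩
    have := (hyk y k).2
    rw [r5, r6] at this
    simpa using this

/-! ### Standard positions -/

/-- A surjection with a section is the second projection in suitable coordinates. -/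
lemma exists_big_coord [FiniteDimensional ℂ V] [FiniteDimensional ℂ U] [FiniteDimensional ℂ K]
    (φ : V →ₗ[ℂ] U) (σ₀ : U →ₗ[ℂ] V) (hσ : ∀ u, φ (σ₀ u) = u)
    (hdim : Module.finrank ℂ V = Module.finrank ℂ K + Module.finrank ℂ U) :
    ∃ e : V ≃ₗ[ℂ] (K × U), (∀ z, φ (e.symm z) = z.2) ∧ (∀ u, e (σ₀ u) = (0, u)) := by
  have hsurj : Function.Surjective φ := fun u => ⟨σ₀ u, hσ u⟩
  have hd := LinearMap.finrank_range_add_finrank_ker φ
  rw [LinearMap.range_eq_top.2 hsurj, finrank_top] at hd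
  let eK : LinearMap.ker φ ≃ₗ[ℂ] K := LinearEquiv.ofFinrankEq _ _ (by omega)
  have hmem : ∀ v, v - σ₀ (φ v) ∈ LinearMap.ker φ := by
    intro v
    rw [LinearMap.mem_ker, map_sub, hσ, sub_self]
  let π : V →ₗ[ℂ] LinearMap.ker φ :=
    LinearMap.codRestrict (LinearMap.ker φ) (LinearMap.id - σ₀ ∘ₗ φ) (fun v => hmem v)
  have hπ : ∀ v, (π v : V) = v - σ₀ (φ v) := fun v => rfl
  let f : V →ₗ[ℂ] (K × U) := LinearMap.prod (eK.toLinearMap ∘ₗ π) φ
  let g : (K × U) →ₗ[ℂ] V := LinearMap.coprod ((LinearMap.ker φ).subtype ∘ₗ eK.symm.toLinearMap) σ₀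
  have hf : ∀ v, f v = (eK (π v), φ v) := fun _ => rfl
  have hg : ∀ z, g z = (eK.symm z.1 : V) + σ₀ z.2 := fun z => by simp [g]
  have hker : ∀ w : LinearMap.ker φ, φ (w : V) = 0 := fun w => w.2
  let e : V ≃ₗ[ℂ] (K × U) := LinearEquiv.ofLinearMap f g
    (by
      apply LinearMap.ext
      intro z
      change f (g z) = z
      rw [hf, hg, map_add φ, hker, hσ, zero_add]
      refine Prod.ext ?_ rfl
      change eK (π ((eK.symm z.1 : V) + σ₀ z.2)) = z.1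
      rw [← eK.eq_symm_apply]
      apply Subtype.ext
      rw [hπ, map_add, hker, hσ, zero_add]
      abel)
    (by
      apply LinearMap.ext
      intro v
      change g (f v) = v
      rw [hf, hg]
      change ((eK.symm (eK (π v)) : LinearMap.ker φ) : V) + σ₀ (φ v) = v
      rw [LinearEquiv.symm_apply_apply, hπ]
      abel)
  refine ⟨e, ?_, ?_⟩
  · intro z
    change φ (g z) = z.2
    rw [hg, map_add, hker, hσ, zero_add]
  · intro u
    change f (σ₀ u) = (0, u)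
    rw [hf, hσ]
    refine Prod.ext ?_ rfl
    change eK (π (σ₀ u)) = 0
    have : π (σ₀ u) = 0 := by
      apply Subtype.ext
      rw [hπ, hσ, sub_self]
      rfl
    rw [this, map_zero]

/-- An injection with a retraction is the first inclusion in suitable coordinates. -/
lemma exists_small_coord [FiniteDimensional ℂ V] [FiniteDimensional ℂ Y] [FiniteDimensional ℂ K]
    (ψ : Y →ₗ[ℂ] V) (r : V →ₗ[ℂ] Y) (hr : ∀ y, r (ψ y) = y)
    (hdim : Module.finrank ℂ V = Module.finrank ℂ Y + Module.finrank ℂ K) :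
    ∃ e : V ≃ₗ[ℂ] (Y × K), ∀ y, e (ψ y) = (y, 0) := by
  obtain ⟨e, -, he⟩ := exists_big_coord (K := K) r ψ hr (by omega)
  refine ⟨e.trans (LinearEquiv.prodComm ℂ K Y), ?_⟩
  intro y
  change (LinearEquiv.prodComm ℂ K Y) (e (ψ y)) = (y, 0)
  rw [he]
  rfl

lemma exists_injective [FiniteDimensional ℂ Y] [FiniteDimensional ℂ U]
    (h : Module.finrank ℂ Y ≤ Module.finrank ℂ U) : ∃ θ : Y →ₗ[ℂ] U, Function.Injective θ := by
  let e1 : Y ≃ₗ[ℂ] (Fin (Module.finrank ℂ Y) → ℂ) := LinearEquiv.ofFinrankEq _ _ (by simp)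
  let e2 : (Fin (Module.finrank ℂ U) → ℂ) ≃ₗ[ℂ] U := LinearEquiv.ofFinrankEq _ _ (by simp)
  have h3 : ∃ f : (Fin (Module.finrank ℂ Y) → ℂ) →ₗ[ℂ] (Fin (Module.finrank ℂ U) → ℂ),
      Function.Injective f := by
    refine ⟨LinearMap.pi (fun i => if hi : i.1 < Module.finrank ℂ Y then
      LinearMap.proj ⟨i.1, hi⟩ else 0), ?_⟩
    intro x y hxy
    funext i
    have := congrFun hxy ⟨i.1, lt_of_lt_of_le i.2 h⟩
    simpa using this
  obtain ⟨f, hf⟩ := h3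
  exact ⟨e2.toLinearMap ∘ₗ f ∘ₗ e1.toLinearMap, fun x y hxy =>
    e1.injective (hf (e2.injective hxy))⟩

variable [FiniteDimensional ℂ V] [FiniteDimensional ℂ V2] [FiniteDimensional ℂ U]
  [FiniteDimensional ℂ Y] [FiniteDimensional ℂ K] [FiniteDimensional ℂ S] [FiniteDimensional ℂ E]

/-- From the big side to the reduced system. -/
lemma KS2.big_red (hU : ∀ P s, τU (P ∘ₗ ρU s - ρU s ∘ₗ P) = bb (τU P) s)
    (hle : Module.finrank ℂ Y ≤ Module.finrank ℂ U)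
    (hV : Module.finrank ℂ V = Module.finrank ℂ U + Module.finrank ℂ K)
    {Λ : V →ₗ[ℂ] V} {φ : V →ₗ[ℂ] U} {ψ : Y →ₗ[ℂ] V} {l : N}
    (h : KS2 a ρU ρY bb c τU τY Λ φ ψ l) :
    ∃ (L : K →ₗ[ℂ] K) (χ : K →ₗ[ℂ] U) (θ : Y →ₗ[ℂ] U) (l' : N), Function.Injective θ ∧
      KR a ρU ρY bb c τU τY L χ θ l' := by
  have hsurj : Function.Surjective φ := by
    rcases h.inj_or_surj_out with h1 | h1
    · have hle := LinearMap.finrank_le_finrank_of_injective h1
      exact (LinearMap.injective_iff_surjective_of_finrank_eq_finrank (by omega)).1 h1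
    · exact h1
  obtain ⟨s₀, hs₀⟩ := φ.exists_rightInverse_of_surjective (LinearMap.range_eq_top.2 hsurj)
  have hs₀' : ∀ u, φ (s₀ u) = u := fun u => LinearMap.congr_fun hs₀ u
  obtain ⟨θ₁, hθ₁⟩ := exists_injective hle
  obtain ⟨ψ', hψ', h'⟩ := h.perturb_in (s₀ ∘ₗ θ₁) (by
    have : φ ∘ₗ s₀ ∘ₗ θ₁ = θ₁ := by
      apply LinearMap.ext
      intro y
      exact hs₀' (θ₁ y)
    rw [this]
    exact hθ₁)
  obtain ⟨r, hr⟩ := (φ ∘ₗ ψ').exists_leftInverse_of_injective (LinearMap.ker_eq_bot.2 hψ')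
  have hr' : ∀ y, r (φ (ψ' y)) = y := fun y => LinearMap.congr_fun hr y
  let σ₀ : U →ₗ[ℂ] V := s₀ + (ψ' - s₀ ∘ₗ φ ∘ₗ ψ') ∘ₗ r
  have hσ₀ : ∀ u, σ₀ u = s₀ u + (ψ' (r u) - s₀ (φ (ψ' (r u)))) := fun _ => rfl
  have hσ₀' : ∀ u, φ (σ₀ u) = u := by
    intro u
    rw [hσ₀, map_add, map_sub, hs₀', hs₀', sub_self, add_zero]
  have hσθ : ∀ y, σ₀ (φ (ψ' y)) = ψ' y := by
    intro y
    rw [hσ₀, hr']
    abel
  obtain ⟨e, he1, he2⟩ := exists_big_coord (K := K) φ σ₀ hσ₀' (by omega)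
  have h2 := h'.congr e
  have e1 : φ ∘ₗ e.symm.toLinearMap = LinearMap.snd ℂ K U := by
    apply LinearMap.ext
    intro z
    exact he1 z
  have e2 : e.toLinearMap ∘ₗ ψ' = LinearMap.inr ℂ K U ∘ₗ (φ ∘ₗ ψ') := by
    apply LinearMap.ext
    intro y
    change e (ψ' y) = (0, φ (ψ' y))
    rw [← hσθ y, he2, hσθ]
  rw [e1, e2] at h2
  exact ⟨_, _, _, _, hψ', h2.big_to_red hU⟩

/-- From the small side to the reduced system. -/
lemma KS2.small_red (hU : ∀ P s, τU (P ∘ₗ ρU s - ρU s ∘ₗ P) = bb (τU P) s)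
    (hY : ∀ P s, τY (P ∘ₗ ρY s - ρY s ∘ₗ P) = bb (τY P) s)
    (hle : Module.finrank ℂ Y ≤ Module.finrank ℂ U)
    (hV : Module.finrank ℂ V = Module.finrank ℂ Y + Module.finrank ℂ K)
    {Λ : V →ₗ[ℂ] V} {φ : V →ₗ[ℂ] U} {ψ : Y →ₗ[ℂ] V} {l : N}
    (h : KS2 a ρU ρY bb c τU τY Λ φ ψ l) :
    ∃ (L : K →ₗ[ℂ] K) (χ : K →ₗ[ℂ] U) (θ : Y →ₗ[ℂ] U) (l' : N), Function.Injective θ ∧
      KR a ρU ρY bb c τU τY L χ θ l' := by
  have hinj : Function.Injective ψ := by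
    rcases h.inj_or_surj_in with h1 | h1
    · exact h1
    · have hle := LinearMap.finrank_le_finrank_of_surjective h1
      exact (LinearMap.injective_iff_surjective_of_finrank_eq_finrank (by omega)).2 h1
  obtain ⟨r, hr⟩ := ψ.exists_leftInverse_of_injective (LinearMap.ker_eq_bot.2 hinj)
  have hr' : ∀ y, r (ψ y) = y := fun y => LinearMap.congr_fun hr y
  obtain ⟨θ₁, hθ₁⟩ := exists_injective hle
  obtain ⟨φ', hφ', h'⟩ := h.perturb_out (θ₁ ∘ₗ r) (by
    have : (θ₁ ∘ₗ r) ∘ₗ ψ = θ₁ := by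
      apply LinearMap.ext
      intro y
      exact congrArg θ₁ (hr' y)
    rw [this]
    exact hθ₁)
  obtain ⟨e, he⟩ := exists_small_coord (K := K) ψ r hr' hV
  have h2 := h'.congr e
  have e2 : e.toLinearMap ∘ₗ ψ = LinearMap.inl ℂ Y K := by
    apply LinearMap.ext
    intro y
    exact he y
  have e1 : φ' ∘ₗ e.symm.toLinearMap = LinearMap.coprod (φ' ∘ₗ ψ)
      (φ' ∘ₗ e.symm.toLinearMap ∘ₗ LinearMap.inr ℂ Y K) := by
    apply LinearMap.ext
    rintro ⟨y, k⟩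
    have e0 : ((y, k) : Y × K) = (y, 0) + (0, k) := by simp
    rw [LinearMap.coprod_apply, e0, map_add]
    have e3 : (φ' ∘ₗ e.symm.toLinearMap) (y, 0) = φ' (ψ y) := by
      change φ' (e.symm (y, 0)) = φ' (ψ y)
      rw [← he y, LinearEquiv.symm_apply_apply]
    rw [e3]
    simp
  rw [e2, e1] at h2
  obtain ⟨L, l', hL⟩ := h2.small_to_red hU hY hφ'
  exact ⟨L, _, _, l', hφ', hL⟩

/-- The shift. -/
theorem shift_iff (hU : ∀ P s, τU (P ∘ₗ ρU s - ρU s ∘ₗ P) = bb (τU P) s)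
    (hY : ∀ P s, τY (P ∘ₗ ρY s - ρY s ∘ₗ P) = bb (τY P) s)
    (hle : Module.finrank ℂ Y ≤ Module.finrank ℂ U) (k : ℕ)
    (hV : Module.finrank ℂ V = Module.finrank ℂ U + k)
    (hV2 : Module.finrank ℂ V2 = Module.finrank ℂ Y + k) :
    (∃ (Λ : V →ₗ[ℂ] V) (φ : V →ₗ[ℂ] U) (ψ : Y →ₗ[ℂ] V) (l : N),
      KS2 a ρU ρY bb c τU τY Λ φ ψ l) ↔
    (∃ (Λ : V2 →ₗ[ℂ] V2) (φ : V2 →ₗ[ℂ] U) (ψ : Y →ₗ[ℂ] V2) (l : N),
      KS2 a ρU ρY bb c τU τY Λ φ ψ l) := by
  constructor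
  · rintro ⟨Λ, φ, ψ, l, h⟩
    obtain ⟨L, χ, θ, l', -, hR⟩ := h.big_red (K := Fin k → ℂ) hU hle (by
      rw [Module.finrank_fin_fun]; exact hV)
    let e : (Y × (Fin k → ℂ)) ≃ₗ[ℂ] V2 := LinearEquiv.ofFinrankEq _ _ (by
      rw [Module.finrank_prod, Module.finrank_fin_fun, hV2])
    exact ⟨_, _, _, _, hR.to_small.congr e⟩
  · rintro ⟨Λ, φ, ψ, l, h⟩
    obtain ⟨L, χ, θ, l', -, hR⟩ := h.small_red (K := Fin k → ℂ) hU hY hle (by
      rw [Module.finrank_fin_fun]; exact hV2)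
    let e : ((Fin k → ℂ) × U) ≃ₗ[ℂ] V := LinearEquiv.ofFinrankEq _ _ (by
      rw [Module.finrank_prod, Module.finrank_fin_fun, hV, add_comm])
    exact ⟨_, _, _, _, hR.to_big.congr e⟩

/-- No nondegenerate system at a vertex that is larger than the equal incoming and outgoing
dimensions. -/
theorem never (hU : ∀ P s, τU (P ∘ₗ ρU s - ρU s ∘ₗ P) = bb (τU P) s)
    (heq : Module.finrank ℂ U = Module.finrank ℂ Y)
    (hlt : Module.finrank ℂ Y < Module.finrank ℂ V)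
    {Λ : V →ₗ[ℂ] V} {φ : V →ₗ[ℂ] U} {ψ : Y →ₗ[ℂ] V} {l : N} :
    ¬ KS2 a ρU ρY bb c τU τY Λ φ ψ l := by
  intro h
  obtain ⟨k, hk⟩ : ∃ k, Module.finrank ℂ V = Module.finrank ℂ U + (k + 1) :=
    ⟨Module.finrank ℂ V - Module.finrank ℂ U - 1, by omega⟩
  obtain ⟨L, χ, θ, l', hθ, hR⟩ := h.big_red (K := Fin (k + 1) → ℂ) hU heq.ge (by
    rw [Module.finrank_fin_fun]; exact hk)
  have hθs : Function.Surjective θ :=
    (LinearMap.injective_iff_surjective_of_finrank_eq_finrank heq.symm).1 hθ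
  let e : Y ≃ₗ[ℂ] U := LinearEquiv.ofBijective θ ⟨hθ, hθs⟩
  have he : ∀ u, θ (e.symm u) = u := fun u => e.apply_symm_apply u
  have h0 := (hR LinearMap.id 0 0 0 (-(e.symm.toLinearMap ∘ₗ χ)) 0 (map_zero a) (by simp)
    (by simp) (by simp) (by
      apply LinearMap.ext
      intro z
      change (ρU 0) (χ z) - χ z = θ (-(e.symm (χ z)))
      rw [map_neg, he, map_zero, LinearMap.zero_apply, zero_sub]) (by simp)).1
  have h1 := congrFun (LinearMap.congr_fun h0 (Pi.single (0 : Fin (k + 1)) (1 : ℂ))) 0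
  simp at h1

omit [FiniteDimensional ℂ U] [FiniteDimensional ℂ S] [FiniteDimensional ℂ E] in
/-- Deletion of the vertex. -/
theorem delete_iff (hY : ∀ P s, τY (P ∘ₗ ρY s - ρY s ∘ₗ P) = bb (τY P) s)
    (hV : Module.finrank ℂ V = Module.finrank ℂ Y) :
    (∃ (Λ : V →ₗ[ℂ] V) (φ : V →ₗ[ℂ] U) (ψ : Y →ₗ[ℂ] V) (l : N),
      KS2 a ρU ρY bb c τU τY Λ φ ψ l) ↔
    (∃ (θ : Y →ₗ[ℂ] U) (l : N), KD a ρU ρY bb c τU τY θ l) := by
  constructor
  · rintro ⟨Λ, φ, ψ, l, h⟩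
    have hinj : Function.Injective ψ := by
      rcases h.inj_or_surj_in with h1 | h1
      · exact h1
      · exact (LinearMap.injective_iff_surjective_of_finrank_eq_finrank hV.symm).2 h1
    have hsurj : Function.Surjective ψ :=
      (LinearMap.injective_iff_surjective_of_finrank_eq_finrank hV.symm).1 hinj
    let e : Y ≃ₗ[ℂ] V := LinearEquiv.ofBijective ψ ⟨hinj, hsurj⟩
    have he : ∀ y, e y = ψ y := fun _ => rfl
    have h2 := h.congr e.symm
    have e1 : e.symm.toLinearMap ∘ₗ ψ = LinearMap.id := by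
      apply LinearMap.ext
      intro y
      change e.symm (ψ y) = y
      rw [← he, LinearEquiv.symm_apply_apply]
    rw [e1] at h2
    generalize e.symm.toLinearMap ∘ₗ Λ ∘ₗ e.symm.symm.toLinearMap = M at h2
    generalize φ ∘ₗ e.symm.symm.toLinearMap = θ at h2
    refine ⟨θ, l + τY M, ?_⟩
    intro s x p h3 h4 h5
    obtain ⟨-, r2, r3, r4, -⟩ := h2 (ρY s) s x p (p ∘ₗ θ - (M ∘ₗ ρY s - ρY s ∘ₗ M)) h3 h4
      (by rw [LinearMap.comp_id, LinearMap.id_comp])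
      (by rw [LinearMap.id_comp]; abel)
      (by
        rw [LinearMap.comp_id, map_sub τY, hY]
        rw [map_add, LinearMap.add_apply] at h5
        rw [← h5]
        abel)
    exact ⟨r2, r3, r4⟩
  · rintro ⟨θ, l, h⟩
    let e : Y ≃ₗ[ℂ] V := LinearEquiv.ofFinrankEq _ _ hV.symm
    have h2 : KS2 a ρU ρY bb c τU τY 0 θ LinearMap.id l := by
      intro σ s x m p h1 h2 h3 h4 h5
      rw [LinearMap.comp_id, LinearMap.id_comp] at h3
      rw [LinearMap.zero_comp, LinearMap.comp_zero, sub_zero, LinearMap.id_comp] at h4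
      have h6 : p = m ∘ₗ θ := (sub_eq_zero.1 h4.symm).symm
      rw [LinearMap.comp_id, h6] at h5
      rw [h3] at h2
      obtain ⟨r1, r2, r3⟩ := h s x m h1 h2 h5
      refine ⟨?_, r1, r2, r3, ?_⟩
      · rw [h3, r1, map_zero]
      · rw [h6, r3, LinearMap.zero_comp]
    exact ⟨_, _, _, _, h2.congr e⟩

end

end Pool.Agent.Helper6.AF2
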